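import Pool.Agent.H22SF.Equiv7

/-!
# The density of the exceptions (helper7)
-/

set_option autoImplicit false

open Finset Filter Topology

namespace Pool.Agent.H22SF

open Classical in
/-- A periodic set has a density. -/
theorem periodic_bound (p : ℕ → Prop) {m : ℕ} (hm : 0 < m) (hp : ∀ n, p (n + m) ↔ p n) (X : ℕ) :
    |(((range X).filter p).card : ℝ) - X * (((range m).filter p).card / m)| ≤ m := by
  have hmr : (0 : ℝ) < m := by exact_mod_cast hm
  have key : ∀ q t : ℕ, ((range (m * q + t)).filter p).card =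
      q * ((range m).filter p).card + ((range t).filter p).card := by
    intro q
    induction q with
    | zero => intro t; simp
    | succ q ih =>
      intro t
      have h1 : m * (q + 1) + t = m + (m * q + t) := by ring
      rw [h1, ← Nat.count_eq_card_filter_range, Nat.count_add]
      have h2 : Nat.count (fun k => p (m + k)) (m * q + t) = Nat.count p (m * q + t) := by
        congr 1
        funext k
        rw [Nat.add_comm]
        exact propext (hp k)
      rw [h2, Nat.count_eq_card_filter_range, Nat.count_eq_card_filter_range, ih t]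
      ring
  have h1 := key (X / m) (X % m)
  rw [Nat.div_add_mod] at h1
  set c := ((range m).filter p).card with hc
  have hcm : c ≤ m := by
    have := Finset.card_filter_le (range m) p
    simpa using this
  have h2 : ((range (X % m)).filter p).card ≤ X % m := by
    have := Finset.card_filter_le (range (X % m)) p
    simpa using this
  have h3 : X % m < m := Nat.mod_lt _ hm
  have h4 : (X : ℝ) = m * (X / m : ℕ) + (X % m : ℕ) := by
    exact_mod_cast (Nat.div_add_mod X m).symm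
  rw [h1]
  have h5 : (X : ℝ) * ((c : ℝ) / m) = (X / m : ℕ) * c + (X % m : ℕ) * ((c : ℝ) / m) := by
    nth_rewrite 1 [h4]
    field_simp
  rw [h5]
  push_cast
  have h6 : (0 : ℝ) ≤ (c : ℝ) / m := by positivity
  have h7 : (c : ℝ) / m ≤ 1 := by
    rw [div_le_one hmr]
    exact_mod_cast hcm
  have h8 : (((range (X % m)).filter p).card : ℝ) ≤ (X % m : ℕ) := by exact_mod_cast h2
  have h9 : ((X % m : ℕ) : ℝ) ≤ m := by exact_mod_cast h3.le
  have h10 : (0 : ℝ) ≤ (((range (X % m)).filter p).card : ℝ) := by positivity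
  have h11 : (0 : ℝ) ≤ ((X % m : ℕ) : ℝ) := by positivity
  have h12 : ((X % m : ℕ) : ℝ) * ((c : ℝ) / m) ≤ (X % m : ℕ) := by nlinarith
  have h13 : (0 : ℝ) ≤ ((X % m : ℕ) : ℝ) * ((c : ℝ) / m) := by positivity
  rw [abs_le]
  constructor <;> linarith

/-- Covered classes consist of exceptions. -/
theorem not_rep_of_covered {s : ℕ} {P : Finset ℕ} (hP : ∀ p ∈ P, p.Prime ∧ p ≠ 2) {n : ℕ}
    (h : CoveredBy s P (n : ℤ)) : ¬ Rep s n := by
  rintro ⟨k, hk, a, ha⟩
  obtain ⟨p, hp, hd⟩ := h a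
  have h1 : (n : ℤ) - ∑ i, 2 ^ a i = (k : ℤ) := by
    rw [ha]
    push_cast
    ring
  rw [h1] at hd
  have h2 : p * p ∣ k := by
    rw [← sq]
    exact_mod_cast hd
  exact (Nat.squarefree_iff_prime_squarefree.1 hk) p (hP p hp).1 h2

theorem covered_mono {s : ℕ} {P P' : Finset ℕ} (h : P ⊆ P') {c : ℤ} (hc : CoveredBy s P c) :
    CoveredBy s P' c := by
  intro a
  obtain ⟨p, hp, hd⟩ := hc a
  exact ⟨p, h hp, hd⟩

theorem covered_congr {s : ℕ} {P : Finset ℕ} {c c' : ℤ}
    (h : (sqProd P : ℤ) ∣ c' - c) (hc : CoveredBy s P c) : CoveredBy s P c' := by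
  intro a
  obtain ⟨p, hp, hd⟩ := hc a
  refine ⟨p, hp, ?_⟩
  have h1 : ((p : ℤ) ^ 2) ∣ c' - c := by
    refine dvd_trans ?_ h
    exact_mod_cast dvd_sqProd hp
  have h2 := dvd_add h1 hd
  have h3 : c' - c + (c - ∑ i, 2 ^ a i) = c' - ∑ i, 2 ^ a i := by ring
  rwa [h3] at h2

/-- The odd numbers in the covered classes, as a periodic set. -/
def cov (s y : ℕ) (n : ℕ) : Prop := Odd n ∧ CoveredBy s (oddPrimes y) (n : ℤ)

theorem cov_periodic (s y n : ℕ) :
    cov s y (n + 2 * sqProd (oddPrimes y)) ↔ cov s y n := by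
  unfold cov
  have h1 : Odd (n + 2 * sqProd (oddPrimes y)) ↔ Odd n := by
    rw [Nat.odd_add]
    simp
  rw [h1]
  constructor
  · rintro ⟨h2, h3⟩
    refine ⟨h2, covered_congr ?_ h3⟩
    push_cast
    exact ⟨-2, by ring⟩
  · rintro ⟨h2, h3⟩
    refine ⟨h2, covered_congr ?_ h3⟩
    push_cast
    exact ⟨2, by ring⟩

open Classical in
/-- The density of the covered classes. -/
noncomputable def dns (s y : ℕ) : ℝ :=
  ((range (2 * sqProd (oddPrimes y))).filter (cov s y)).card / ((2 * sqProd (oddPrimes y) : ℕ) : ℝ)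

theorem per_pos (y : ℕ) : 0 < 2 * sqProd (oddPrimes y) :=
  Nat.mul_pos two_pos (sqProd_pos (oddPrimes_spec y))

open Classical in
theorem card_cov (s y X : ℕ) :
    |(((range X).filter (cov s y)).card : ℝ) - X * dns s y| ≤ (2 * sqProd (oddPrimes y) : ℕ) :=
  periodic_bound (cov s y) (per_pos y) (cov_periodic s y) X

open Classical in
/-- Exceptions are in the covered classes or few. -/
theorem bad_split (s y X : ℕ) : (bad s X).card = ((range X).filter (cov s y)).card +
    ((bad s X).filter fun n : ℕ => ¬ CoveredBy s (oddPrimes y) (n : ℤ)).card := by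
  rw [← Finset.card_filter_add_card_filter_not (s := bad s X)
    (fun n : ℕ => CoveredBy s (oddPrimes y) (n : ℤ))]
  congr 2
  ext n
  unfold bad cov
  simp only [mem_filter, mem_range]
  constructor
  · rintro ⟨⟨h1, h2, h3⟩, h4⟩
    exact ⟨h1, h2, h4⟩
  · rintro ⟨h1, h2, h4⟩
    exact ⟨⟨h1, h2, not_rep_of_covered (oddPrimes_spec y) h4⟩, h4⟩

/-- The exceptions have a density, and it is the limit of the densities of the covered classes. -/
theorem exists_density (s : ℕ) : ∃ δ : ℝ,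
    Tendsto (fun X : ℕ => ((bad s X).card : ℝ) / X) atTop (𝓝 δ) ∧
      (∀ y, dns s y ≤ δ) ∧ ∀ y, 0 < y → δ ≤ dns s y + 1 / y := by
  classical
  -- upper and lower bounds for fixed `y`
  have hlow : ∀ y X : ℕ, 0 < X → dns s y - (2 * sqProd (oddPrimes y) : ℕ) / X ≤
      ((bad s X).card : ℝ) / X := by
    intro y X hX
    have hXr : (0 : ℝ) < X := by exact_mod_cast hX
    have h1 := (abs_le.1 (card_cov s y X)).1
    have h2 : (((range X).filter (cov s y)).card : ℝ) ≤ (bad s X).card := by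
      rw [bad_split s y X]
      push_cast
      have : (0 : ℝ) ≤ (((bad s X).filter fun n : ℕ =>
        ¬ CoveredBy s (oddPrimes y) (n : ℤ)).card : ℝ) := by positivity
      linarith
    rw [sub_le_iff_le_add, ← add_div, le_div_iff₀ hXr]
    linarith
  have hupp : ∀ y : ℕ, 0 < y → ∃ M : ℕ, ∀ X : ℕ, 0 < X → ((bad s X).card : ℝ) / X ≤
      dns s y + 1 / y + (2 * sqProd (oddPrimes y) : ℕ) / X + M / Real.sqrt X := by
    intro y hy
    obtain ⟨M, hM⟩ := card_bad_le s y hy
    refine ⟨M, fun X hX => ?_⟩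
    have hXr : (0 : ℝ) < X := by exact_mod_cast hX
    have h1 := (abs_le.1 (card_cov s y X)).2
    have h2 := hM X hX
    have h3 : ((bad s X).card : ℝ) = ((range X).filter (cov s y)).card +
        ((bad s X).filter fun n : ℕ => ¬ CoveredBy s (oddPrimes y) (n : ℤ)).card := by
      exact_mod_cast bad_split s y X
    have h4 : (M : ℝ) / Real.sqrt X = M * Real.sqrt X / X := by
      rw [div_eq_div_iff (Real.sqrt_pos.2 hXr).ne' hXr.ne', mul_assoc,
        Real.mul_self_sqrt hXr.le]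
    have h5 : (1 : ℝ) / y = (X / y) / X := by
      field_simp
    rw [h4, h5, div_le_iff₀ hXr]
    have h6 : (dns s y + X / y / X + (2 * sqProd (oddPrimes y) : ℕ) / X +
        M * Real.sqrt X / X) * X = X * dns s y + X / y + (2 * sqProd (oddPrimes y) : ℕ) +
        M * Real.sqrt X := by
      field_simp
    rw [h6, h3]
    linarith
  -- limits of the error terms
  have hl1 : ∀ c : ℝ, Tendsto (fun X : ℕ => c / (X : ℝ)) atTop (𝓝 0) := fun c =>
    tendsto_const_nhds.div_atTop tendsto_natCast_atTop_atTop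
  have hl2 : ∀ c : ℝ, Tendsto (fun X : ℕ => c / Real.sqrt X) atTop (𝓝 0) := fun c =>
    tendsto_const_nhds.div_atTop (Real.tendsto_sqrt_atTop.comp tendsto_natCast_atTop_atTop)
  -- comparison of `dns`
  have hcmp : ∀ y y' : ℕ, 0 < y' → dns s y ≤ dns s y' + 1 / y' := by
    intro y y' hy'
    obtain ⟨M, hM⟩ := hupp y' hy'
    have t1 : Tendsto (fun X : ℕ => dns s y - (2 * sqProd (oddPrimes y) : ℕ) / (X : ℝ)) atTop
        (𝓝 (dns s y - 0)) := tendsto_const_nhds.sub (hl1 _)
    have t2 : Tendsto (fun X : ℕ => dns s y' + 1 / y' + (2 * sqProd (oddPrimes y') : ℕ) / (X : ℝ) +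
        M / Real.sqrt X) atTop (𝓝 (dns s y' + 1 / y' + 0 + 0)) :=
      (tendsto_const_nhds.add (hl1 _)).add (hl2 _)
    have := le_of_tendsto_of_tendsto t1 t2 (by
      filter_upwards [eventually_gt_atTop 0] with X hX
      exact (hlow y X hX).trans (hM X hX))
    simpa using this
  have hbdd : BddAbove (Set.range (dns s)) := by
    refine ⟨dns s 1 + 1 / (1 : ℕ), ?_⟩
    rintro _ ⟨y, rfl⟩
    exact hcmp y 1 one_pos
  set δ := ⨆ y, dns s y with hδ
  have hδ1 : ∀ y, dns s y ≤ δ := fun y => le_ciSup hbdd y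
  have hδ2 : ∀ y, 0 < y → δ ≤ dns s y + 1 / y := fun y hy => ciSup_le fun y' => hcmp y' y hy
  refine ⟨δ, ?_, hδ1, hδ2⟩
  rw [Metric.tendsto_atTop]
  intro ε hε
  obtain ⟨y, hy⟩ := exists_nat_gt (4 / ε)
  have hy0 : 0 < y := by
    have : (0 : ℝ) < y := lt_trans (by positivity) hy
    exact_mod_cast this
  have hyr : (0 : ℝ) < y := by exact_mod_cast hy0
  have hy1 : 1 / (y : ℝ) < ε / 4 := by
    rw [div_lt_iff₀ hyr]
    rw [div_lt_iff₀ hε] at hy
    linarith
  obtain ⟨M, hM⟩ := hupp y hy0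
  have e1 := (hl1 (2 * sqProd (oddPrimes y) : ℕ)).eventually (gt_mem_nhds (show (0 : ℝ) < ε / 4 by positivity))
  have e2 := (hl2 M).eventually (gt_mem_nhds (show (0 : ℝ) < ε / 4 by positivity))
  obtain ⟨X0, hX0⟩ := eventually_atTop.1 ((e1.and e2).and (eventually_gt_atTop 0))
  refine ⟨X0, fun X hX => ?_⟩
  obtain ⟨⟨h1, h2⟩, h3⟩ := hX0 X hX
  have h4 := hlow y X h3
  have h5 := hM X h3
  have h6 := hδ1 y
  have h7 := hδ2 y hy0
  rw [Real.dist_eq, abs_lt]
  constructor <;> linarith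

/-- From a covering to a progression. -/
theorem ap_of_covered {s : ℕ} {P : Finset ℕ} (hP : ∀ p ∈ P, p.Prime ∧ p ≠ 2) {c : ℤ}
    (hc : CoveredBy s P c) :
    ∃ b q : ℕ, 0 < q ∧ ∀ t, Odd (b + t * q) ∧ ¬ Rep s (b + t * q) := by
  have hQ := sqProd_pos hP
  have hQo := sqProd_odd hP
  set Q := sqProd P with hQd
  have hQz : (Q : ℤ) ≠ 0 := by exact_mod_cast hQ.ne'
  obtain ⟨r, hr⟩ : ∃ r : ℕ, (r : ℤ) = c % Q :=
    ⟨(c % Q).toNat, Int.toNat_of_nonneg (Int.emod_nonneg _ hQz)⟩
  obtain ⟨b, hb, hbo⟩ : ∃ b : ℕ, (Q : ℤ) ∣ (b : ℤ) - c ∧ Odd b := by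
    have h1 : (Q : ℤ) ∣ (r : ℤ) - c := by
      rw [hr]
      exact ⟨-(c / Q), by rw [Int.emod_def]; ring⟩
    rcases Nat.even_or_odd r with h | h
    · refine ⟨r + Q, ?_, h.add_odd hQo⟩
      push_cast
      have : (r : ℤ) + Q - c = (r - c) + Q := by ring
      rw [this]
      exact dvd_add h1 dvd_rfl
    · exact ⟨r, h1, h⟩
  refine ⟨b, 2 * Q, by omega, fun t => ⟨?_, ?_⟩⟩
  · rw [Nat.odd_add]
    constructor
    · intro _
      exact ⟨t * Q, by ring⟩
    · intro _
      exact hbo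
  · refine not_rep_of_covered hP (covered_congr ?_ hc)
    push_cast
    have : (b : ℤ) + t * (2 * Q) - c = (b - c) + Q * (2 * t) := by ring
    rw [← hQd, this]
    exact dvd_add hb (dvd_mul_right _ _)

/-- A progression of exceptions forces positive density. -/
theorem pos_of_ap {s : ℕ} {b q : ℕ} (hq : 0 < q)
    (h : ∀ t, Odd (b + t * q) ∧ ¬ Rep s (b + t * q)) {δ : ℝ}
    (hδ : Tendsto (fun X : ℕ => ((bad s X).card : ℝ) / X) atTop (𝓝 δ)) : 0 < δ := by
  classical
  have hqr : (0 : ℝ) < q := by exact_mod_cast hq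
  -- along `X = b + N q`
  have h1 : ∀ N : ℕ, (N : ℝ) / ((b + N * q : ℕ) : ℝ) ≤
      ((bad s (b + N * q)).card : ℝ) / ((b + N * q : ℕ) : ℝ) := by
    intro N
    refine div_le_div_of_nonneg_right ?_ (by positivity)
    have h2 : (range N).card ≤ (bad s (b + N * q)).card := by
      refine Finset.card_le_card_of_injOn (fun t => b + t * q) ?_ ?_
      · intro t ht
        have ht' : t < N := by simpa using ht
        have h3 : b + t * q < b + N * q := by
          have := Nat.mul_lt_mul_of_pos_right ht' hq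
          omega
        simp only [bad, coe_filter, mem_range, Set.mem_setOf_eq]
        exact ⟨h3, h t⟩
      · intro t _ t' _ heq
        have h3 : b + t * q = b + t' * q := heq
        exact Nat.eq_of_mul_eq_mul_right hq (by omega)
    rw [card_range] at h2
    exact_mod_cast h2
  have htop : Tendsto (fun N : ℕ => b + N * q) atTop atTop := by
    refine tendsto_atTop_mono (f := fun N : ℕ => N) (fun N => ?_) tendsto_id
    have : N * 1 ≤ N * q := Nat.mul_le_mul_left N hq
    omega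
  have h2 : Tendsto (fun N : ℕ => ((bad s (b + N * q)).card : ℝ) / ((b + N * q : ℕ) : ℝ)) atTop
      (𝓝 δ) := hδ.comp htop
  have h3 : Tendsto (fun N : ℕ => (N : ℝ) / ((b + N * q : ℕ) : ℝ)) atTop (𝓝 (1 / q)) := by
    have e1 : ∀ᶠ N : ℕ in atTop, 1 / ((b : ℝ) / (N : ℝ) + q) = (N : ℝ) / ((b + N * q : ℕ) : ℝ) := by
      filter_upwards [eventually_gt_atTop 0] with N hN
      have hNr : (0 : ℝ) < N := by exact_mod_cast hN
      push_cast
      field_simp
    refine Tendsto.congr' e1 ?_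
    have e2 : Tendsto (fun N : ℕ => (b : ℝ) / (N : ℝ) + q) atTop (𝓝 (0 + q)) :=
      (tendsto_const_nhds.div_atTop tendsto_natCast_atTop_atTop).add tendsto_const_nhds
    rw [zero_add] at e2
    exact tendsto_const_nhds.div e2 hqr.ne'
  have h4 : 1 / (q : ℝ) ≤ δ := le_of_tendsto_of_tendsto' h3 h2 h1
  exact lt_of_lt_of_le (by positivity) h4

/-- No covering: density zero. -/
theorem dns_eq_zero {s : ℕ}
    (h : ¬ ∃ (P : Finset ℕ) (c : ℤ), (∀ p ∈ P, p.Prime ∧ p ≠ 2) ∧ CoveredBy s P c) (y : ℕ) :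
    dns s y = 0 := by
  classical
  unfold dns
  have : ((range (2 * sqProd (oddPrimes y))).filter (cov s y)) = ∅ := by
    refine Finset.filter_eq_empty_iff.2 fun n _ hn => h ⟨oddPrimes y, n, oddPrimes_spec y, hn.2⟩
  rw [this]
  simp

/-- **Theorem.** -/
theorem main (s : ℕ) : ∃ δ : ℝ,
    Tendsto (fun X : ℕ => ((bad s X).card : ℝ) / X) atTop (𝓝 δ) ∧
    [δ = 0,
      ¬ ∃ b q : ℕ, 0 < q ∧ ∀ t, Odd (b + t * q) ∧ ¬ Rep s (b + t * q),
      ¬ ∃ (P : Finset ℕ) (c : ℤ), (∀ p ∈ P, p.Prime ∧ p ≠ 2) ∧ CoveredBy s P c].TFAE := by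
  obtain ⟨δ, h1, h2, h3⟩ := exists_density s
  refine ⟨δ, h1, ?_⟩
  tfae_have 1 → 2 := by
    rintro h0 ⟨b, q, hq, h⟩
    exact (pos_of_ap hq h h1).ne' h0
  tfae_have 2 → 3 := by
    rintro h0 ⟨P, c, hP, hc⟩
    exact h0 (ap_of_covered hP hc)
  tfae_have 3 → 1 := by
    intro h0
    have h4 : ∀ y : ℕ, 0 < y → δ ≤ 1 / (y : ℝ) := by
      intro y hy
      have := h3 y hy
      rwa [dns_eq_zero h0, zero_add] at this
    have h5 : 0 ≤ δ := by
      have := h2 0
      rwa [dns_eq_zero h0] at this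
    refine le_antisymm ?_ h5
    have t : Tendsto (fun y : ℕ => 1 / (y : ℝ)) atTop (𝓝 0) := tendsto_one_div_atTop_nhds_zero_nat
    exact ge_of_tendsto t (by
      filter_upwards [eventually_gt_atTop 0] with y hy
      exact h4 y hy)
  tfae_finish

end Pool.Agent.H22SF
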