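import Mathlib

/-!
# Squarefree numbers plus `s` powers of two: density, progressions, coverings (helper7, helper22)
-/

set_option autoImplicit false

open Finset Filter Topology

namespace Pool.Agent.H22SF

/-- `n` is the sum of a squarefree positive integer and `s` powers of `2`. -/
def Rep (s n : ℕ) : Prop := ∃ k, Squarefree k ∧ ∃ a : Fin s → ℕ, n = k + ∑ i, 2 ^ a i

/-- The class of `c` is covered by the squares of the primes of `P`: every difference of `c` and a
sum of `s` powers of `2` is divisible by the square of a prime of `P`. -/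
def CoveredBy (s : ℕ) (P : Finset ℕ) (c : ℤ) : Prop :=
  ∀ a : Fin s → ℕ, ∃ p ∈ P, ((p : ℤ) ^ 2) ∣ c - ∑ i, 2 ^ a i

/-- The odd primes up to `y`. -/
def oddPrimes (y : ℕ) : Finset ℕ := (range (y + 1)).filter fun p => p.Prime ∧ p ≠ 2

/-- The product of the squares. -/
def sqProd (P : Finset ℕ) : ℕ := ∏ p ∈ P, p ^ 2

theorem sqProd_odd {P : Finset ℕ} (hP : ∀ p ∈ P, p.Prime ∧ p ≠ 2) : Odd (sqProd P) := by
  unfold sqProd
  refine Finset.prod_induction _ Odd (fun a b => Odd.mul) odd_one fun p hp => ?_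
  exact ((hP p hp).1.odd_of_ne_two (hP p hp).2).pow

theorem sqProd_pos {P : Finset ℕ} (hP : ∀ p ∈ P, p.Prime ∧ p ≠ 2) : 0 < sqProd P :=
  (sqProd_odd hP).pos

theorem dvd_sqProd {P : Finset ℕ} {p : ℕ} (hp : p ∈ P) : p ^ 2 ∣ sqProd P :=
  Finset.dvd_prod_of_mem (fun p => p ^ 2) hp

theorem oddPrimes_spec (y : ℕ) : ∀ p ∈ oddPrimes y, p.Prime ∧ p ≠ 2 := fun _ hp =>
  (mem_filter.1 hp).2

/-- A class which is not covered has a good even sum. -/
theorem exists_shift {s : ℕ} {P : Finset ℕ} (hP : ∀ p ∈ P, p.Prime ∧ p ≠ 2) {c : ℤ}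
    (hc : ¬ CoveredBy s P c) :
    ∃ a : Fin s → ℕ, Even (∑ i, 2 ^ a i) ∧ ∀ p ∈ P, ¬ ((p : ℤ) ^ 2) ∣ c - ((∑ i, 2 ^ a i : ℕ) : ℤ) := by
  unfold CoveredBy at hc
  push Not at hc
  obtain ⟨a, ha⟩ := hc
  have hQ : Nat.Coprime 2 (sqProd P) := (Nat.coprime_two_left).2 (sqProd_odd hP)
  have hφ : 0 < Nat.totient (sqProd P) := Nat.totient_pos.2 (sqProd_pos hP)
  refine ⟨fun i => a i + Nat.totient (sqProd P), ?_, ?_⟩
  · refine Finset.even_sum _ fun i _ => ?_
    have h0 : a i + Nat.totient (sqProd P) ≠ 0 := by omega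
    exact Nat.even_pow.2 ⟨even_two, h0⟩
  · intro p hp hdvd
    apply ha p hp
    have h1 : (2 ^ Nat.totient (sqProd P) : ℤ) ≡ 1 [ZMOD ((p : ℤ) ^ 2)] := by
      have h2 : 2 ^ Nat.totient (sqProd P) ≡ 1 [MOD p ^ 2] :=
        (Nat.ModEq.pow_totient hQ).of_dvd (dvd_sqProd hp)
      have h3 := (Int.natCast_modEq_iff).2 h2
      push_cast at h3
      exact h3
    have h4 : (∑ i, (2 : ℤ) ^ (a i + Nat.totient (sqProd P))) ≡ ∑ i, 2 ^ a i
        [ZMOD ((p : ℤ) ^ 2)] := by
      refine Int.ModEq.sum fun i _ => ?_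
      have h5 := h1.mul_left (2 ^ a i)
      rw [mul_one, ← pow_add] at h5
      exact h5
    have h6 : (c - ∑ i, (2 : ℤ) ^ (a i + Nat.totient (sqProd P))) ≡ c - ∑ i, 2 ^ a i
        [ZMOD ((p : ℤ) ^ 2)] := (Int.ModEq.refl c).sub h4
    have h7 : ((p : ℤ) ^ 2) ∣ c - ∑ i, (2 : ℤ) ^ (a i + Nat.totient (sqProd P)) := by
      have : ((∑ i, 2 ^ (a i + Nat.totient (sqProd P)) : ℕ) : ℤ) =
          ∑ i, (2 : ℤ) ^ (a i + Nat.totient (sqProd P)) := by push_cast; rfl
      rw [← this]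
      exact hdvd
    exact (Int.ModEq.dvd_iff h6).1 h7

/-- Numbers in one class. -/
theorem card_class_le {X m : ℕ} (T : Finset ℕ) (hT : ∀ n ∈ T, n < X)
    (hc : ∀ n ∈ T, ∀ n' ∈ T, n ≡ n' [MOD m]) : T.card ≤ X / m + 1 := by
  have h1 : T.card ≤ (range (X / m + 1)).card := by
    refine Finset.card_le_card_of_injOn (fun n => n / m) ?_ ?_
    · intro n hn
      have := hT n hn
      simp only [coe_range, Set.mem_Iio]
      exact Nat.lt_succ_of_le (Nat.div_le_div_right this.le)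
    · intro n hn n' hn' h
      have h2 : n % m = n' % m := hc n hn n' hn'
      have h3 : n / m = n' / m := h
      rw [← Nat.div_add_mod n m, ← Nat.div_add_mod n' m, h2, h3]
  simpa using h1

/-- The exceptions below `X`. -/
noncomputable def bad (s X : ℕ) : Finset ℕ :=
  open Classical in (range X).filter fun n => Odd n ∧ ¬ Rep s n

open Classical in
/-- The exceptions outside the covered classes. -/
theorem card_bad_le (s y : ℕ) (hy : 0 < y) : ∃ M : ℕ, ∀ X : ℕ, 0 < X →
    (((bad s X).filter fun n : ℕ => ¬ CoveredBy s (oddPrimes y) (n : ℤ)).card : ℝ) ≤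
      X / y + M * Real.sqrt X := by
  classical
  set P := oddPrimes y with hPdef
  have hP := oddPrimes_spec y
  rw [← hPdef] at hP
  set Q := sqProd P with hQdef
  have hQ := sqProd_pos hP
  -- the sums
  have hsh : ∀ r : ℕ, ∃ σ : ℕ, Even σ ∧ (¬ CoveredBy s P (r : ℤ) → (∃ a : Fin s → ℕ,
      σ = ∑ i, 2 ^ a i) ∧ ∀ p ∈ P, ¬ ((p : ℤ) ^ 2) ∣ (r : ℤ) - (σ : ℤ)) := by
    intro r
    by_cases h : CoveredBy s P (r : ℤ)
    · exact ⟨0, ⟨0, rfl⟩, fun h' => absurd h h'⟩
    · obtain ⟨a, ha, hp⟩ := exists_shift hP h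
      exact ⟨∑ i, 2 ^ a i, ha, fun _ => ⟨⟨a, rfl⟩, hp⟩⟩
  choose σ hσe hσ using hsh
  set M := (range Q).sup σ with hM
  refine ⟨M + 1 + Q, fun X hX => ?_⟩
  set N := Nat.sqrt X with hN
  -- the covering of the exceptions
  have hsub : ((bad s X).filter fun n : ℕ => ¬ CoveredBy s P (n : ℤ)) ⊆
      range (M + 1) ∪ (range Q).biUnion fun r => (Ioc y (max y N)).biUnion fun p =>
        if p.Coprime Q ∧ 0 < p then (range X).filter fun n : ℕ => n ≡ r [MOD Q] ∧ n ≡ σ r [MOD p ^ 2]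
        else ∅ := by
    intro n hn
    rw [mem_filter] at hn
    obtain ⟨hn1, hn2⟩ := hn
    unfold bad at hn1
    rw [mem_filter, mem_range] at hn1
    obtain ⟨hnX, hodd, hnr⟩ := hn1
    rw [mem_union]
    by_cases hnM : n < M + 1
    · exact Or.inl (mem_range.2 hnM)
    · right
      push Not at hnM
      set r := n % Q with hr
      have hrQ : r < Q := Nat.mod_lt _ hQ
      have hnr' : n ≡ r [MOD Q] := (Nat.mod_modEq n Q).symm
      have hdvdQ : (Q : ℤ) ∣ (n : ℤ) - (r : ℤ) := by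
        have := (Nat.modEq_iff_dvd).1 hnr'.symm
        exact this
      have hcov : ¬ CoveredBy s P (r : ℤ) := by
        intro hc
        apply hn2
        intro a
        obtain ⟨p, hp, hd⟩ := hc a
        refine ⟨p, hp, ?_⟩
        have h1 : ((p : ℤ) ^ 2) ∣ (n : ℤ) - (r : ℤ) := by
          refine dvd_trans ?_ hdvdQ
          exact_mod_cast dvd_sqProd hp
        have h2 := dvd_add h1 hd
        have h3 : (n : ℤ) - (r : ℤ) + ((r : ℤ) - ∑ i, 2 ^ a i) = (n : ℤ) - ∑ i, 2 ^ a i := by ring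
        rwa [h3] at h2
      obtain ⟨⟨a, ha⟩, hgood⟩ := hσ r hcov
      have hσM : σ r ≤ M := Finset.le_sup (f := σ) (mem_range.2 hrQ)
      have hlt : σ r < n := by omega
      obtain ⟨k, hk⟩ : ∃ k, n = k + σ r := ⟨n - σ r, by omega⟩
      have hk0 : k ≠ 0 := by omega
      have hkodd : Odd k := by
        have h1 : Odd (k + σ r) := hk ▸ hodd
        exact (Nat.odd_add.1 h1).2 (hσe r)
      have hnsq : ¬ Squarefree k := fun hsq => hnr ⟨k, hsq, a, by rw [← ha]; exact hk⟩
      rw [Nat.squarefree_iff_prime_squarefree] at hnsq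
      push Not at hnsq
      obtain ⟨p, hp, hpk⟩ := hnsq
      have hp2 : p ≠ 2 := by
        rintro rfl
        have h1 : 2 ∣ k := dvd_trans (dvd_mul_right 2 2) hpk
        exact (Nat.not_even_iff_odd.2 hkodd) (even_iff_two_dvd.2 h1)
      have hpy : y < p := by
        by_contra hle
        push Not at hle
        have hpP : p ∈ P := by
          rw [hPdef]
          unfold oddPrimes
          rw [mem_filter, mem_range]
          exact ⟨by omega, hp, hp2⟩
        apply hgood p hpP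
        have h1 : ((p : ℤ) ^ 2) ∣ (n : ℤ) - (r : ℤ) := by
          refine dvd_trans ?_ hdvdQ
          exact_mod_cast dvd_sqProd hpP
        have h2 : ((p : ℤ) ^ 2) ∣ (k : ℤ) := by
          have : p ^ 2 ∣ k := by rw [sq]; exact hpk
          exact_mod_cast this
        have h3 : (r : ℤ) - (σ r : ℤ) = (k : ℤ) - ((n : ℤ) - (r : ℤ)) := by
          rw [hk]
          push_cast
          ring
        rw [h3]
        exact dvd_sub h2 h1
      have hpN : p ≤ N := by
        rw [hN, Nat.le_sqrt]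
        have h1 := Nat.le_of_dvd (Nat.pos_of_ne_zero hk0) hpk
        omega
      have hcop : p.Coprime Q := by
        rw [hQdef]
        unfold sqProd
        refine Nat.Coprime.prod_right fun q hq => ?_
        refine Nat.Coprime.pow_right 2 ?_
        rw [Nat.coprime_primes hp (hP q hq).1]
        rintro rfl
        have : p < y + 1 := by
          rw [hPdef] at hq
          exact mem_range.1 (mem_filter.1 hq).1
        omega
      rw [mem_biUnion]
      refine ⟨r, mem_range.2 hrQ, ?_⟩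
      rw [mem_biUnion]
      refine ⟨p, mem_Ioc.2 ⟨hpy, le_trans hpN (le_max_right _ _)⟩, ?_⟩
      rw [if_pos ⟨hcop, hp.pos⟩, mem_filter, mem_range]
      refine ⟨hnX, hnr', ?_⟩
      rw [hk]
      have h1 : k ≡ 0 [MOD p ^ 2] := by
        rw [Nat.modEq_zero_iff_dvd, sq]
        exact hpk
      simpa using h1.add_right (σ r)
  have hcard := Finset.card_le_card hsub
  have hU : ((range (M + 1) ∪ (range Q).biUnion fun r => (Ioc y (max y N)).biUnion fun p =>
        if p.Coprime Q ∧ 0 < p then (range X).filter fun n : ℕ => n ≡ r [MOD Q] ∧ n ≡ σ r [MOD p ^ 2]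
        else ∅).card : ℝ) ≤ (M + 1 : ℝ) + Q * (X / (Q * y) + N) := by
    have h1 : ∀ r ∈ range Q, ∀ p ∈ Ioc y (max y N),
        ((if p.Coprime Q ∧ 0 < p then
          (range X).filter fun n : ℕ => n ≡ r [MOD Q] ∧ n ≡ σ r [MOD p ^ 2] else ∅).card : ℝ) ≤
        (X / Q : ℝ) * ((p : ℝ) ^ 2)⁻¹ + 1 := by
      intro r _ p _
      split_ifs with h
      · have h2 := card_class_le (X := X) (m := Q * p ^ 2)
          ((range X).filter fun n : ℕ => n ≡ r [MOD Q] ∧ n ≡ σ r [MOD p ^ 2])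
          (fun n hn => mem_range.1 (mem_filter.1 hn).1)
          (fun n hn n' hn' => by
            have h3 := (mem_filter.1 hn).2
            have h4 := (mem_filter.1 hn').2
            refine (Nat.modEq_and_modEq_iff_modEq_mul (Nat.Coprime.pow_right 2 h.1.symm)).1 ?_
            exact ⟨h3.1.trans h4.1.symm, h3.2.trans h4.2.symm⟩)
        have h3 : (((range X).filter fun n : ℕ => n ≡ r [MOD Q] ∧ n ≡ σ r [MOD p ^ 2]).card : ℝ) ≤
            ((X / (Q * p ^ 2) : ℕ) : ℝ) + 1 := by exact_mod_cast h2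
        refine le_trans h3 ?_
        have h4 : ((X / (Q * p ^ 2) : ℕ) : ℝ) ≤ (X : ℝ) / ((Q * p ^ 2 : ℕ) : ℝ) := Nat.cast_div_le
        have h5 : (X : ℝ) / ((Q * p ^ 2 : ℕ) : ℝ) = (X / Q : ℝ) * ((p : ℝ) ^ 2)⁻¹ := by
          push_cast
          rw [div_mul_eq_div_div, div_eq_mul_inv _ ((p : ℝ) ^ 2)]
        linarith
      · simp only [card_empty, Nat.cast_zero]
        positivity
    have h2 : ∀ r ∈ range Q, (((Ioc y (max y N)).biUnion fun p => if p.Coprime Q ∧ 0 < p then
          (range X).filter fun n : ℕ => n ≡ r [MOD Q] ∧ n ≡ σ r [MOD p ^ 2] else ∅).card : ℝ) ≤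
        X / (Q * y) + N := by
      intro r hr
      have e1 : (((Ioc y (max y N)).biUnion fun p => if p.Coprime Q ∧ 0 < p then
          (range X).filter fun n : ℕ => n ≡ r [MOD Q] ∧ n ≡ σ r [MOD p ^ 2] else ∅).card : ℝ) ≤
          ∑ p ∈ Ioc y (max y N), ((if p.Coprime Q ∧ 0 < p then
          (range X).filter fun n : ℕ => n ≡ r [MOD Q] ∧ n ≡ σ r [MOD p ^ 2] else ∅).card : ℝ) := by
        exact_mod_cast Finset.card_biUnion_le
      refine le_trans e1 (le_trans (Finset.sum_le_sum fun p hp => h1 r hr p hp) ?_)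
      rw [Finset.sum_add_distrib, ← Finset.mul_sum, Finset.sum_const, Nat.card_Ioc, nsmul_eq_mul,
        mul_one]
      have e2 : ∑ p ∈ Ioc y (max y N), ((p : ℝ) ^ 2)⁻¹ ≤ (y : ℝ)⁻¹ := by
        have := sum_Ioc_inv_sq_le_sub (α := ℝ) (k := y) (n := max y N) hy.ne' (le_max_left _ _)
        have h0 : (0 : ℝ) ≤ ((max y N : ℕ) : ℝ)⁻¹ := by positivity
        linarith
      have e3 : ((max y N - y : ℕ) : ℝ) ≤ N := by
        have : max y N - y ≤ N := by omega
        exact_mod_cast this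
      have e4 : (X / Q : ℝ) * ∑ p ∈ Ioc y (max y N), ((p : ℝ) ^ 2)⁻¹ ≤ X / (Q * y) := by
        refine le_trans (mul_le_mul_of_nonneg_left e2 (by positivity)) ?_
        rw [div_mul_eq_div_div, div_eq_mul_inv _ (y : ℝ)]
      linarith
    have h3 : (((range Q).biUnion fun r => (Ioc y (max y N)).biUnion fun p =>
        if p.Coprime Q ∧ 0 < p then (range X).filter fun n : ℕ => n ≡ r [MOD Q] ∧ n ≡ σ r [MOD p ^ 2]
        else ∅).card : ℝ) ≤ Q * (X / (Q * y) + N) := by
      have e1 : (((range Q).biUnion fun r => (Ioc y (max y N)).biUnion fun p =>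
        if p.Coprime Q ∧ 0 < p then (range X).filter fun n : ℕ => n ≡ r [MOD Q] ∧ n ≡ σ r [MOD p ^ 2]
        else ∅).card : ℝ) ≤ ∑ r ∈ range Q, (((Ioc y (max y N)).biUnion fun p =>
          if p.Coprime Q ∧ 0 < p then
          (range X).filter fun n : ℕ => n ≡ r [MOD Q] ∧ n ≡ σ r [MOD p ^ 2] else ∅).card : ℝ) := by
        exact_mod_cast Finset.card_biUnion_le
      refine le_trans e1 (le_trans (Finset.sum_le_sum h2) ?_)
      rw [Finset.sum_const, card_range, nsmul_eq_mul]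
    have h4 := Finset.card_union_le (range (M + 1)) ((range Q).biUnion fun r =>
        (Ioc y (max y N)).biUnion fun p =>
        if p.Coprime Q ∧ 0 < p then (range X).filter fun n : ℕ => n ≡ r [MOD Q] ∧ n ≡ σ r [MOD p ^ 2]
        else ∅)
    rw [card_range] at h4
    have h5 : ((range (M + 1) ∪ (range Q).biUnion fun r => (Ioc y (max y N)).biUnion fun p =>
        if p.Coprime Q ∧ 0 < p then (range X).filter fun n : ℕ => n ≡ r [MOD Q] ∧ n ≡ σ r [MOD p ^ 2]
        else ∅).card : ℝ) ≤ (M + 1 : ℝ) + (((range Q).biUnion fun r =>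
        (Ioc y (max y N)).biUnion fun p =>
        if p.Coprime Q ∧ 0 < p then (range X).filter fun n : ℕ => n ≡ r [MOD Q] ∧ n ≡ σ r [MOD p ^ 2]
        else ∅).card : ℝ) := by exact_mod_cast h4
    linarith
  have hcard' : (((bad s X).filter fun n : ℕ => ¬ CoveredBy s P (n : ℤ)).card : ℝ) ≤
      (M + 1 : ℝ) + Q * (X / (Q * y) + N) := le_trans (by exact_mod_cast hcard) hU
  refine le_trans hcard' ?_
  have hsqrt : (N : ℝ) ≤ Real.sqrt X := by
    rw [hN]
    exact Real.nat_sqrt_le_real_sqrt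
  have h1 : (1 : ℝ) ≤ Real.sqrt X := by
    rw [Real.one_le_sqrt]
    exact_mod_cast hX
  have hQr : (0 : ℝ) < Q := by exact_mod_cast hQ
  have hyr : (0 : ℝ) < y := by exact_mod_cast hy
  have e5 : (Q : ℝ) * (X / (Q * y) + N) = X / y + Q * N := by
    field_simp
  rw [e5]
  push_cast
  have e6 : (Q : ℝ) * N ≤ Q * Real.sqrt X := mul_le_mul_of_nonneg_left hsqrt hQr.le
  have e7 : (M + 1 : ℝ) ≤ (M + 1) * Real.sqrt X := by
    have : (0 : ℝ) ≤ (M : ℝ) + 1 := by positivity
    nlinarith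
  nlinarith

end Pool.Agent.H22SF
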