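import Pool.Agent.H22SF.Dens7

/-!
# Coverings for one power more (helper7)
-/

set_option autoImplicit false

open Finset

namespace Pool.Agent.H22SF

theorem sum_shift {s : ℕ} {P : Finset ℕ} (hP : ∀ p ∈ P, p.Prime ∧ p ≠ 2) (a : Fin s → ℕ)
    {p : ℕ} (hp : p ∈ P) :
    (∑ i, (2 : ℤ) ^ (a i + Nat.totient (sqProd P))) ≡ ∑ i, 2 ^ a i [ZMOD ((p : ℤ) ^ 2)] := by
  have hQ : Nat.Coprime 2 (sqProd P) := (Nat.coprime_two_left).2 (sqProd_odd hP)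
  have h1 : (2 ^ Nat.totient (sqProd P) : ℤ) ≡ 1 [ZMOD ((p : ℤ) ^ 2)] := by
    have h2 : 2 ^ Nat.totient (sqProd P) ≡ 1 [MOD p ^ 2] :=
      (Nat.ModEq.pow_totient hQ).of_dvd (dvd_sqProd hp)
    have h3 := (Int.natCast_modEq_iff).2 h2
    push_cast at h3
    exact h3
  refine Int.ModEq.sum fun i _ => ?_
  have h5 := h1.mul_left (2 ^ a i)
  rw [mul_one, ← pow_add] at h5
  exact h5

/-- A class which is covered for `s + 1` powers is covered for `s` powers. -/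
theorem covered_of_succ {s : ℕ} (hs : 1 ≤ s) {P : Finset ℕ} (hP : ∀ p ∈ P, p.Prime ∧ p ≠ 2)
    {c : ℤ} (h : CoveredBy (s + 1) P c) : CoveredBy s P c := by
  obtain ⟨m, rfl⟩ : ∃ m, s = m + 1 := ⟨s - 1, by omega⟩
  intro a
  set φ := Nat.totient (sqProd P) with hφ
  have hφ0 : 0 < φ := Nat.totient_pos.2 (sqProd_pos hP)
  let b : Fin (m + 1 + 1) → ℕ :=
    Fin.cons (a 0 + φ - 1) (Fin.cons (a 0 + φ - 1) fun i : Fin m => a i.succ + φ)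
  obtain ⟨p, hp, hd⟩ := h b
  refine ⟨p, hp, ?_⟩
  have h1 : ∑ i, (2 : ℤ) ^ b i = ∑ i, (2 : ℤ) ^ (a i + φ) := by
    rw [Fin.sum_univ_succ, Fin.sum_univ_succ, Fin.sum_univ_succ (f := fun i => (2 : ℤ) ^ (a i + φ))]
    have h2 : (2 : ℤ) ^ (a 0 + φ) = 2 ^ (a 0 + φ - 1) + 2 ^ (a 0 + φ - 1) := by
      obtain ⟨e, he⟩ : ∃ e, a 0 + φ = e + 1 := ⟨a 0 + φ - 1, by omega⟩
      rw [he, Nat.add_sub_cancel, pow_succ]
      ring
    rw [h2]
    simp only [b, Fin.cons_zero, Fin.cons_succ]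
    ring
  rw [h1] at hd
  exact (Int.ModEq.dvd_iff ((Int.ModEq.refl c).sub (sum_shift hP a hp))).1 hd

end Pool.Agent.H22SF
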